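import Pool.Agent.R864.SelfInv

set_option autoImplicit false

/-!
# A Hessian nilpotent self-inverting cubic form not given by the isotropic construction

In seven variables put `a = z₁ + i z₂`, `b = z₃ + i z₄`, `c = z₅ + i z₆`, `e = z₇`,
`d = z₅ - i z₆`.  The cubic form `P = a² c + 2 a b e - b² d` is self-inverting and Hessian
nilpotent, but it does not lie in `𝒜_Ξ` for any nonempty set `Ξ` of pairwise orthogonal vectors.
-/

namespace Pool.Agent.Results.MP_0f7e3c_al.CubicCounterexample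

open Pool.Agent.R864.SelfInv

section defs

open MvPowerSeries

variable {n : ℕ}

/-- The linear form `h_α(z) = ⟨α, z⟩ = ∑ α_i z_i`. -/
noncomputable def linForm (α : Fin n → ℂ) : MvPowerSeries (Fin n) ℂ := ∑ i, C (α i) * X i

/-- Pairwise orthogonality, including `α = β`, for the bilinear form `⟨u, v⟩ = ∑ u_i v_i`. -/
def PairwiseOrthogonal (Ξ : Set (Fin n → ℂ)) : Prop :=
  ∀ α ∈ Ξ, ∀ β ∈ Ξ, ∑ i, α i * β i = 0

/-- `P` lies in `𝒜_Ξ`, the completion of the algebra generated by the linear forms `h_α`,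
`α ∈ Ξ`: for every `d` some element `Q` of this algebra agrees with `P` in all degrees below
`d`. -/
def InIsotropic (Ξ : Set (Fin n → ℂ)) (P : MvPowerSeries (Fin n) ℂ) : Prop :=
  ∀ d : ℕ, ∃ Q ∈ Algebra.adjoin ℂ (linForm '' Ξ), (d : ℕ∞) ≤ (P - Q).order

end defs

open MvPolynomial

/-- polynomials in seven variables -/
abbrev S := MvPolynomial (Fin 7) ℂ

/-- the constant `i` -/
noncomputable def J : S := C Complex.I

theorem J_sq : J * J = -1 := by
  unfold J
  rw [← map_mul, Complex.I_mul_I, map_neg, map_one]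

noncomputable def a : S := X 0 + J * X 1
noncomputable def b : S := X 2 + J * X 3
noncomputable def c : S := X 4 + J * X 5
noncomputable def d : S := X 4 - J * X 5
noncomputable def e : S := X 6

/-- The cubic form. -/
noncomputable def P : S := a ^ 2 * c + 2 * a * b * e - b ^ 2 * d

theorem dJ (i : Fin 7) : pderiv i J = 0 := by unfold J; exact pderiv_C

theorem pd_lin (i j k : Fin 7) : pderiv i (X j + J * X k : S) =
    (if i = j then 1 else 0) + J * (if i = k then 1 else 0) := by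
  rw [map_add, Derivation.leibniz, dJ, smul_zero, add_zero, pderiv_X, pderiv_X,
    Pi.single_apply, Pi.single_apply, smul_eq_mul]
  simp only [eq_comm]

theorem pd_lin' (i j k : Fin 7) : pderiv i (X j - J * X k : S) =
    (if i = j then 1 else 0) - J * (if i = k then 1 else 0) := by
  rw [map_sub, Derivation.leibniz, dJ, smul_zero, add_zero, pderiv_X, pderiv_X,
    Pi.single_apply, Pi.single_apply, smul_eq_mul]
  simp only [eq_comm]

theorem dP (i : Fin 7) : pderiv i P = (2 * a * c + 2 * b * e) * pderiv i a +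
    (2 * a * e - 2 * b * d) * pderiv i b + a ^ 2 * pderiv i c + 2 * a * b * pderiv i e -
    b ^ 2 * pderiv i d := by
  have h2 : pderiv i (2 : S) = 0 := (pderiv i).map_natCast 2
  rw [P, map_sub, map_add]
  simp only [pow_two, Derivation.leibniz, smul_eq_mul, h2]
  ring

theorem dP0 : pderiv 0 P = 2 * a * c + 2 * b * e := by
  rw [dP, a, b, c, d, e, pd_lin, pd_lin, pd_lin, pd_lin', pderiv_X_of_ne (by decide)]; simp
theorem dP1 : pderiv 1 P = (2 * a * c + 2 * b * e) * J := by
  rw [dP, a, b, c, d, e, pd_lin, pd_lin, pd_lin, pd_lin', pderiv_X_of_ne (by decide)]; simp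
theorem dP2 : pderiv 2 P = 2 * a * e - 2 * b * d := by
  rw [dP, a, b, c, d, e, pd_lin, pd_lin, pd_lin, pd_lin', pderiv_X_of_ne (by decide)]; simp
theorem dP3 : pderiv 3 P = (2 * a * e - 2 * b * d) * J := by
  rw [dP, a, b, c, d, e, pd_lin, pd_lin, pd_lin, pd_lin', pderiv_X_of_ne (by decide)]; simp
theorem dP4 : pderiv 4 P = a ^ 2 - b ^ 2 := by
  rw [dP, a, b, c, d, e, pd_lin, pd_lin, pd_lin, pd_lin', pderiv_X_of_ne (by decide)]; simp
theorem dP5 : pderiv 5 P = (a ^ 2 + b ^ 2) * J := by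
  rw [dP, a, b, c, d, e, pd_lin, pd_lin, pd_lin, pd_lin', pderiv_X_of_ne (by decide)]; simp; ring
theorem dP6 : pderiv 6 P = 2 * a * b := by
  rw [dP, a, b, c, d, e, pd_lin, pd_lin, pd_lin, pd_lin', pderiv_X_self]; simp

theorem order_P : (2 : ℕ∞) ≤ (P : MvPowerSeries (Fin 7) ℂ).order := by
  have key : ∀ f : S, constantCoeff f = 0 →
      (1 : ℕ∞) ≤ (f : MvPowerSeries (Fin 7) ℂ).order := by
    intro f hf
    rw [MvPowerSeries.one_le_order_iff_constCoeff_eq_zero,
      ← MvPowerSeries.coeff_zero_eq_constantCoeff_apply, coeff_coe]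
    exact hf
  have ha := key a (by simp [a])
  have hb := key b (by simp [b])
  have hc := key c (by simp [c])
  have hd := key d (by simp [d])
  have he := key e (by simp [e])
  have hP : (P : MvPowerSeries (Fin 7) ℂ) = (a : MvPowerSeries (Fin 7) ℂ) * (a * c : S) +
      ((a : MvPowerSeries (Fin 7) ℂ) * (2 * b * e : S) + (b : MvPowerSeries (Fin 7) ℂ) *
        (- (b * d) : S)) := by
    rw [← coe_mul, ← coe_mul, ← coe_mul, ← coe_add, ← coe_add]
    congr 1
    rw [P]; ring
  have h1 := key (a * c : S) (by simp [a])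
  have h2 := key (2 * b * e : S) (by simp [b])
  have h3 := key (- (b * d) : S) (by simp [b])
  have two : ∀ f g : MvPowerSeries (Fin 7) ℂ, 1 ≤ f.order → 1 ≤ g.order → 2 ≤ (f * g).order := by
    intro f g hf hg
    refine le_trans ?_ MvPowerSeries.le_order_mul
    rw [← one_add_one_eq_two]
    exact add_le_add hf hg
  rw [hP]
  exact le_trans (le_min (two _ _ ha h1) (le_trans (le_min (two _ _ ha h2) (two _ _ hb h3))
    MvPowerSeries.min_order_le_add)) MvPowerSeries.min_order_le_add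

/-- `P` as a power series. -/
noncomputable def Q : MvPowerSeries (Fin 7) ℂ := (P : MvPowerSeries (Fin 7) ℂ)

/-- the coercion as a ring homomorphism -/
noncomputable def ι : S →+* MvPowerSeries (Fin 7) ℂ := coeToMvPowerSeries.ringHom

theorem ι_apply (f : S) : ι f = (f : MvPowerSeries (Fin 7) ℂ) := rfl

theorem dQ (i : Fin 7) : MvPowerSeries.pderiv ℂ i Q = ι (pderiv i P) := by
  rw [Q, MvPowerSeries.pderiv_coe]; rfl

/-- the substitution `z ↦ z + t ∇P(z)` -/
noncomputable def sb (t : ℂ) : S →ₐ[ℂ] S := aeval (fun j => X j + C t * pderiv j P)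

theorem sb_X (t : ℂ) (j : Fin 7) : sb t (X j) = X j + C t * pderiv j P := aeval_X _ _

theorem sb_J (t : ℂ) : sb t J = J := by
  have : J = algebraMap ℂ S Complex.I := rfl
  rw [this, AlgHom.commutes]

theorem sb_a (t : ℂ) : sb t a = a := by
  have : sb t a = sb t (X 0) + sb t J * sb t (X 1) := by rw [a, map_add, map_mul]
  rw [this, sb_X, sb_X, sb_J, dP0, dP1]
  unfold a
  linear_combination (C t * (2 * (X 0 + J * X 1) * c + 2 * b * e)) * J_sq

theorem sb_b (t : ℂ) : sb t b = b := by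
  have : sb t b = sb t (X 2) + sb t J * sb t (X 3) := by rw [b, map_add, map_mul]
  rw [this, sb_X, sb_X, sb_J, dP2, dP3]
  unfold b
  linear_combination (C t * (2 * a * e - 2 * (X 2 + J * X 3) * d)) * J_sq

theorem sb_c (t : ℂ) : sb t c = c - 2 * C t * b ^ 2 := by
  have : sb t c = sb t (X 4) + sb t J * sb t (X 5) := by rw [c, map_add, map_mul]
  rw [this, sb_X, sb_X, sb_J, dP4, dP5]
  unfold c
  linear_combination (C t * (a ^ 2 + b ^ 2)) * J_sq

theorem sb_d (t : ℂ) : sb t d = d + 2 * C t * a ^ 2 := by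
  have : sb t d = sb t (X 4) - sb t J * sb t (X 5) := by rw [d, map_sub, map_mul]
  rw [this, sb_X, sb_X, sb_J, dP4, dP5]
  unfold d
  linear_combination (-C t * (a ^ 2 + b ^ 2)) * J_sq

theorem sb_e (t : ℂ) : sb t e = e + 2 * C t * a * b := by
  rw [e, sb_X, dP6]; ring

theorem sb_fix (t : ℂ) (i : Fin 7) : sb t (pderiv i P) = pderiv i P := by
  have h2 : sb t 2 = 2 := map_ofNat _ 2
  have g1 : sb t (2 * a * c + 2 * b * e) = 2 * a * c + 2 * b * e := by
    simp only [map_add, map_mul, h2, sb_a, sb_b, sb_c, sb_e]; ring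
  have g2 : sb t (2 * a * e - 2 * b * d) = 2 * a * e - 2 * b * d := by
    simp only [map_sub, map_mul, h2, sb_a, sb_b, sb_d, sb_e]; ring
  fin_cases i
  · change sb t (pderiv 0 P) = pderiv 0 P
    rw [dP0, g1]
  · change sb t (pderiv 1 P) = pderiv 1 P
    rw [dP1, map_mul, g1, sb_J]
  · change sb t (pderiv 2 P) = pderiv 2 P
    rw [dP2, g2]
  · change sb t (pderiv 3 P) = pderiv 3 P
    rw [dP3, map_mul, g2, sb_J]
  · change sb t (pderiv 4 P) = pderiv 4 P
    rw [dP4]; simp only [map_sub, map_pow, sb_a, sb_b]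
  · change sb t (pderiv 5 P) = pderiv 5 P
    rw [dP5]; simp only [map_add, map_mul, map_pow, sb_a, sb_b, sb_J]
  · change sb t (pderiv 6 P) = pderiv 6 P
    rw [dP6]; simp only [map_mul, h2, sb_a, sb_b]

theorem fix (t : ℂ) (i : Fin 7) :
    MvPowerSeries.subst (fun j => MvPowerSeries.X j +
      MvPowerSeries.C t * MvPowerSeries.pderiv ℂ j Q) (MvPowerSeries.pderiv ℂ i Q) =
      MvPowerSeries.pderiv ℂ i Q := by
  have h : ∀ f : S, MvPowerSeries.subst (fun j => MvPowerSeries.X j +
      MvPowerSeries.C t * MvPowerSeries.pderiv ℂ j Q) (f : MvPowerSeries (Fin 7) ℂ) =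
      ((sb t f : S) : MvPowerSeries (Fin 7) ℂ) := by
    intro f
    rw [MvPowerSeries.subst_coe]
    induction f using MvPolynomial.induction_on with
    | C a => simp [sb, MvPowerSeries.algebraMap_apply]
    | add f g hf hg => simp only [map_add, MvPolynomial.coe_add, hf, hg]
    | mul_X f i hf =>
      rw [map_mul, map_mul, MvPolynomial.coe_mul, hf]
      congr 1
      rw [aeval_X, sb_X, dQ, ι_apply]
      simp
  rw [dQ, ι_apply, h, sb_fix]

theorem symm_hess (i j : Fin 7) : MvPowerSeries.pderiv ℂ i (MvPowerSeries.pderiv ℂ j Q) =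
    ι (pderiv i (pderiv j P)) := by
  rw [dQ, ι_apply, MvPowerSeries.pderiv_coe]; rfl

theorem deg_PP (i j : Fin 7) : constantCoeff (pderiv i (pderiv j P)) = 0 := by
  have hd : ∀ (k l : Fin 7) (f g : S), constantCoeff f = 0 → constantCoeff g = 0 →
      constantCoeff (pderiv k (f * g)) = 0 := by
    intro k l f g hf hg
    rw [pderiv_mul, map_add, map_mul, map_mul, hf, hg]; simp
  have ca : constantCoeff a = 0 := by simp [a]
  have cb : constantCoeff b = 0 := by simp [b]
  have cc : constantCoeff c = 0 := by simp [c]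
  have cd : constantCoeff d = 0 := by simp [d]
  have ce : constantCoeff e = 0 := by simp [e]
  have g : ∀ k (f g : S), constantCoeff f = 0 → constantCoeff g = 0 →
      constantCoeff (pderiv k (f * g)) = 0 := fun k f g hf hg => hd k k f g hf hg
  have s1 : ∀ k, constantCoeff (pderiv k (2 * a * c + 2 * b * e)) = 0 := by
    intro k
    rw [map_add, map_add, g _ _ _ (by rw [map_mul, ca, mul_zero]) cc,
      g _ _ _ (by rw [map_mul, cb, mul_zero]) ce, add_zero]
  have s2 : ∀ k, constantCoeff (pderiv k (2 * a * e - 2 * b * d)) = 0 := by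
    intro k
    rw [map_sub, map_sub, g _ _ _ (by rw [map_mul, ca, mul_zero]) ce,
      g _ _ _ (by rw [map_mul, cb, mul_zero]) cd, sub_zero]
  have sJ : ∀ k (f : S), constantCoeff (pderiv k f) = 0 → constantCoeff (pderiv k (f * J)) = 0 := by
    intro k f hf
    rw [pderiv_mul, dJ, mul_zero, add_zero, map_mul, hf, zero_mul]
  have s3 : ∀ k, constantCoeff (pderiv k (a ^ 2 - b ^ 2)) = 0 := by
    intro k
    rw [pow_two, pow_two, map_sub, map_sub, g _ _ _ ca ca, g _ _ _ cb cb, sub_zero]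
  have s4 : ∀ k, constantCoeff (pderiv k (a ^ 2 + b ^ 2)) = 0 := by
    intro k
    rw [pow_two, pow_two, map_add, map_add, g _ _ _ ca ca, g _ _ _ cb cb, add_zero]
  have s5 : ∀ k, constantCoeff (pderiv k (2 * a * b)) = 0 := by
    intro k
    rw [g _ _ _ (by rw [map_mul, ca, mul_zero]) cb]
  fin_cases j
  · change constantCoeff (pderiv i (pderiv 0 P)) = 0
    rw [dP0, s1]
  · change constantCoeff (pderiv i (pderiv 1 P)) = 0
    rw [dP1, sJ _ _ (s1 i)]
  · change constantCoeff (pderiv i (pderiv 2 P)) = 0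
    rw [dP2, s2]
  · change constantCoeff (pderiv i (pderiv 3 P)) = 0
    rw [dP3, sJ _ _ (s2 i)]
  · change constantCoeff (pderiv i (pderiv 4 P)) = 0
    rw [dP4, s3]
  · change constantCoeff (pderiv i (pderiv 5 P)) = 0
    rw [dP5, sJ _ _ (s4 i)]
  · change constantCoeff (pderiv i (pderiv 6 P)) = 0
    rw [dP6, s5]

theorem admissible : Admissible Q := by
  refine ⟨order_P, ?_⟩
  have : (hessian Q).map (MvPowerSeries.constantCoeff (σ := Fin 7) (R := ℂ)) = 0 := by
    ext1 i j
    change MvPowerSeries.constantCoeff (MvPowerSeries.pderiv ℂ i (MvPowerSeries.pderiv ℂ j Q)) = 0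
    rw [symm_hess, ι_apply, ← MvPowerSeries.coeff_zero_eq_constantCoeff_apply, coeff_coe]
    exact deg_PP i j
  rw [this]
  exact ⟨1, by simp⟩

theorem selfInverting : SelfInverting Q := selfInverting_of Q admissible fix

theorem isHN : IsHN Q := isHN_of_selfInverting P selfInverting

/-! ### `P` is not given by the isotropic construction -/

section notIso

/-- the derivation in direction `β` -/
noncomputable def Dβ (β : Fin 7 → ℂ) (f : MvPowerSeries (Fin 7) ℂ) : MvPowerSeries (Fin 7) ℂ :=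
  ∑ i, MvPowerSeries.C (β i) * MvPowerSeries.pderiv ℂ i f

theorem Dβ_lin (β α : Fin 7 → ℂ) (h : ∑ i, α i * β i = 0) : Dβ β (linForm α) = 0 := by
  unfold Dβ linForm
  have h1 : ∀ i, MvPowerSeries.pderiv ℂ i (∑ j, MvPowerSeries.C (α j) * MvPowerSeries.X j) =
      (MvPowerSeries.C (α i) : MvPowerSeries (Fin 7) ℂ) := by
    intro i
    rw [map_sum, Finset.sum_eq_single i]
    · rw [Derivation.leibniz, MvPowerSeries.pderiv_C, smul_zero, add_zero,
        MvPowerSeries.pderiv_X_self, smul_eq_mul, mul_one]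
    · intro j _ hj
      rw [Derivation.leibniz, MvPowerSeries.pderiv_C, smul_zero, add_zero,
        MvPowerSeries.pderiv_X_of_ne hj, smul_zero]
    · simp
  simp only [h1, ← map_mul, ← map_sum]
  rw [show ∑ i, β i * α i = 0 by rw [← h]; exact Finset.sum_congr rfl fun i _ => mul_comm _ _,
    map_zero]

theorem Dβ_adjoin (Ξ : Set (Fin 7 → ℂ)) (β : Fin 7 → ℂ) (hβ : ∀ α ∈ Ξ, ∑ i, α i * β i = 0)
    (Q : MvPowerSeries (Fin 7) ℂ) (hQ : Q ∈ Algebra.adjoin ℂ (linForm '' Ξ)) : Dβ β Q = 0 := by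
  induction hQ using Algebra.adjoin_induction with
  | mem x hx => obtain ⟨α, hα, rfl⟩ := hx; exact Dβ_lin β α (hβ α hα)
  | algebraMap r =>
    unfold Dβ
    refine Finset.sum_eq_zero fun i _ => ?_
    rw [Derivation.map_algebraMap, mul_zero]
  | add x y _ _ hx hy =>
    unfold Dβ at *
    simp only [map_add, mul_add, Finset.sum_add_distrib, hx, hy, add_zero]
  | mul x y _ _ hx hy =>
    unfold Dβ at *
    have : ∀ i, MvPowerSeries.C (β i) * MvPowerSeries.pderiv ℂ i (x * y) =
        x * (MvPowerSeries.C (β i) * MvPowerSeries.pderiv ℂ i y) +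
        y * (MvPowerSeries.C (β i) * MvPowerSeries.pderiv ℂ i x) := by
      intro i; rw [Derivation.leibniz, smul_eq_mul, smul_eq_mul]; ring
    simp only [this, Finset.sum_add_distrib, ← Finset.mul_sum, hx, hy, mul_zero, add_zero]

theorem Dβ_iso (Ξ : Set (Fin 7 → ℂ)) (β : Fin 7 → ℂ) (hβ : ∀ α ∈ Ξ, ∑ i, α i * β i = 0)
    (F : MvPowerSeries (Fin 7) ℂ) (hF : InIsotropic Ξ F) : Dβ β F = 0 := by
  ext m
  obtain ⟨G, hG, hord⟩ := hF (m.degree + 2)
  have h1 : Dβ β F = Dβ β (F - G) := by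
    have h2 := Dβ_adjoin Ξ β hβ G hG
    have h3 : Dβ β (F - G) = Dβ β F - Dβ β G := by
      unfold Dβ; simp only [map_sub, mul_sub, Finset.sum_sub_distrib]
    rw [h3, h2, sub_zero]
  rw [h1]
  unfold Dβ
  rw [map_sum, map_zero]
  refine Finset.sum_eq_zero fun i _ => ?_
  rw [MvPowerSeries.coeff_C_mul, MvPowerSeries.coeff_pderiv, MvPowerSeries.coeff_of_lt_order,
    zero_mul, mul_zero]
  refine lt_of_lt_of_le ?_ hord
  rw [map_add, Finsupp.degree_single]
  exact_mod_cast Nat.lt_succ_self _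

/-- the directional derivative of the polynomial -/
theorem Dβ_Q (β : Fin 7 → ℂ) : Dβ β Q = ι (∑ i, C (β i) * pderiv i P) := by
  unfold Dβ
  rw [map_sum]
  refine Finset.sum_congr rfl fun i _ => ?_
  rw [map_mul, dQ]
  congr 1
  rw [ι_apply, coe_C]

theorem Dβ_zero (β : Fin 7 → ℂ) (h : Dβ β Q = 0) (v : Fin 7 → ℂ) :
    ∑ i, β i * eval v (pderiv i P) = 0 := by
  rw [Dβ_Q, ι_apply] at h
  have h1 : (∑ i, C (β i) * pderiv i P : S) = 0 := by
    apply coe_injective
    rw [h, coe_zero]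
  have h2 := congrArg (eval v) h1
  rw [map_sum, map_zero] at h2
  rw [← h2]
  exact Finset.sum_congr rfl fun i _ => by rw [map_mul, eval_C]

theorem not_iso (Ξ : Set (Fin 7 → ℂ)) (_ : Ξ.Nonempty) (hΞ : PairwiseOrthogonal Ξ) :
    ¬ InIsotropic Ξ Q := by
  intro hQ
  -- the fifth coordinate of every element of `Ξ` vanishes
  have h5 : ∀ α ∈ Ξ, α 4 = 0 := by
    intro α hα
    have h := Dβ_iso Ξ α (fun β hβ => hΞ β hβ α hα) Q hQ
    have e1 := Dβ_zero α h ![1, 0, 0, 0, 0, 0, 0]
    have e2 := Dβ_zero α h ![0, 0, 1, 0, 0, 0, 0]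
    rw [Fin.sum_univ_seven, dP0, dP1, dP2, dP3, dP4, dP5, dP6] at e1 e2
    simp [a, b, c, d, e, J] at e1 e2
    linear_combination (1/2 : ℂ) * e1 - (1/2 : ℂ) * e2
  have h := Dβ_iso Ξ (Pi.single 4 1) (fun α hα => by
    rw [Finset.sum_eq_single 4]
    · rw [h5 α hα, zero_mul]
    · intro j _ hj; rw [Pi.single_eq_of_ne hj, mul_zero]
    · simp) Q hQ
  have e1 := Dβ_zero _ h ![1, 0, 0, 0, 0, 0, 0]
  rw [Finset.sum_eq_single 4, Pi.single_eq_same, dP4] at e1
  · simp [a, b, J] at e1
  · intro j _ hj; rw [Pi.single_eq_of_ne hj, zero_mul]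
  · simp

end notIso

/-- There is a polynomial `P` in seven variables over `ℂ` which is Hessian nilpotent and
self-inverting, but which lies in `𝒜_Ξ` for no nonempty set `Ξ` of pairwise orthogonal vectors. -/
theorem result :
    ∃ P : MvPolynomial (Fin 7) ℂ, IsHN (P : MvPowerSeries (Fin 7) ℂ) ∧
      SelfInverting (P : MvPowerSeries (Fin 7) ℂ) ∧
      ∀ Ξ : Set (Fin 7 → ℂ), Ξ.Nonempty → PairwiseOrthogonal Ξ →
        ¬ InIsotropic Ξ (P : MvPowerSeries (Fin 7) ℂ) :=
  ⟨P, isHN, selfInverting, not_iso⟩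

end Pool.Agent.Results.MP_0f7e3c_al.CubicCounterexample
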